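import Pool.Agent.Helpers25.TFConvB

namespace Pool.Agent.Results.MP_a69704_mp.NotConvex

open Pool.Agent.Helpers25.TFDW Pool.Agent.Helpers25.TFConv

/-- (1) For all constants the function `E` is real valued on `[0, ∞)`. (2) For all constants
`A, γ, C_e > 0` and `p > 4/3` there is `Z₀ > 0` such that for all nuclei (any number, any positions)
of total charge `Z < Z₀` the function `λ ↦ E(λ)` is not convex on `[0, ∞)`. (3) In particular it is
not true that `E` is convex for every choice of the constants and of the nuclear data. -/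
theorem result :
    (∀ A γ Ce p : ℝ, 0 < A → 0 < γ → 0 < Ce → 4 / 3 < p → ∀ N : Nuclei,
      ∃ e : ℝ → ℝ, ∀ lam, 0 ≤ lam → E A γ Ce p N lam = (e lam : EReal)) ∧
    (∀ A γ Ce p : ℝ, 0 < A → 0 < γ → 0 < Ce → 4 / 3 < p →
      ∃ Z0 : ℝ, 0 < Z0 ∧ ∀ N : Nuclei, N.Z < Z0 → ∀ e : ℝ → ℝ,
        (∀ lam, 0 ≤ lam → E A γ Ce p N lam = (e lam : EReal)) →
          ¬ ConvexOn ℝ (Set.Ici 0) e) ∧
    ¬ (∀ A γ Ce p : ℝ, 0 < A → 0 < γ → 0 < Ce → 4 / 3 < p → ∀ N : Nuclei, ∀ e : ℝ → ℝ,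
        (∀ lam, 0 ≤ lam → E A γ Ce p N lam = (e lam : EReal)) → ConvexOn ℝ (Set.Ici 0) e) := by
  refine ⟨fun A γ Ce p hA hγ hCe hp N => E_real hA hγ hCe hp N,
    fun A γ Ce p hA hγ hCe hp => main hA hγ hCe hp, ?_⟩
  intro H
  obtain ⟨Z0, hZ0, hmain⟩ := main (A := 1) (γ := 1) (Ce := 1) (p := 5 / 3) one_pos one_pos one_pos
    (by norm_num)
  let N : Nuclei :=
    { k := 1
      one_le_k := le_rfl
      R := fun _ => 0
      R_injective := fun _ _ _ => Subsingleton.elim _ _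
      z := fun _ => Z0 / 2
      z_pos := fun _ => by positivity }
  have hZ : N.Z = Z0 / 2 := by simp [Nuclei.Z, N]
  obtain ⟨e, he⟩ := E_real (A := 1) (γ := 1) (Ce := 1) (p := 5 / 3) one_pos one_pos one_pos
    (by norm_num) N
  exact hmain N (by rw [hZ]; linarith) e he
    (H 1 1 1 (5 / 3) one_pos one_pos one_pos (by norm_num) N e he)

end Pool.Agent.Results.MP_a69704_mp.NotConvex
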